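import Mathlib
import Pool.Agent.W420.Cen.Defs
import Pool.Agent.W420.Cen.Main

/-!
The centre of the positive part of the quantum affine algebra of `sl_2`.
-/

set_option autoImplicit false

namespace Pool.Agent.Results.MP_cafee0_al.Center

/-- Let `K` be a field and `q` a nonzero element of `K` which is not a root of unity. Let `U^+` be
the `K`-algebra with two generators and the two cubic `q`-Serre relations. The centre of `U^+` is
`K 1` (and so it is generated, as a `K`-algebra, by the empty set). -/
theorem result {K : Type*} [Field K] (q : K) (hq : q ≠ 0) (hroot : ∀ n : ℕ, 0 < n → q ^ n ≠ 1) :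
    Subalgebra.center K (Pool.Agent.W420.Cen.UPlus K q) = ⊥ := by
  rw [eq_bot_iff]
  intro z hz
  rw [Subalgebra.mem_center_iff] at hz
  obtain ⟨c, hc⟩ := Pool.Agent.W420.Cen.main_center q hq hroot z (fun w => (hz w).symm)
  rw [Algebra.mem_bot]
  exact ⟨c, hc⟩

end Pool.Agent.Results.MP_cafee0_al.Center
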